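import Pool.Agent.Lib.MP_94fdc2_nt.Base

/-! MP_59d845_nt: the Brun-Hooley sieve with an explicit `m` and a better count. -/

set_option autoImplicit false

open Finset

namespace Pool.Agent.MP_59d845_nt

open Pool.Agent.SievePar

/-- the sieve of the library with an explicit `m` and a better count -/
theorem sieve_count_strong (k l₀ m : ℕ) (hk : 2 * k + 1 ≤ 2 ^ 2 ^ l₀)
    (hm : 2 * Real.exp (16 * k) ≤ 4 ^ m) (C : ℕ) :
    ∃ R₀ : ℕ, ∀ S : ℕ → Finset ℕ, (∀ p, S p ⊆ range p) →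
      (∀ p, (S p).card ≤ k) → (∀ p, p ≤ 2 ^ 2 ^ l₀ → S p = ∅) → ∀ R : ℕ, R₀ ≤ R →
      C * 2 ^ (2 ^ R * (16 * m + 24)) ≤
        2 ^ 2 ^ R * (sv S (2 ^ 2 ^ R) (2 ^ (2 ^ R * (16 * m + 24)))).card := by
  obtain ⟨R₀, hR₀⟩ := exists_level k
  refine ⟨R₀ + 2 * C, fun S hS hSk hS0 R hR' => ?_⟩
  have hR : R₀ ≤ R := by omega
  have hRC : 2 * C ≤ R := by omega
  have h1 := brun_hooley (R := R) (fun j => blk j) (fun j p hp => (mem_blk.1 hp).2.2)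
    (fun i j hij => disjoint_blk (fun h => hij (Fin.ext h))) S hS
    (fun j => m + (R - 1 - j)) (2 ^ (2 ^ R * (16 * m + 24)))
  have h2 := main_term hk hm hSk hS0 R
  have h3 := prod_AA_le hk hSk hS0 m R
  have h4 := hR₀ R hR
  set N : ℝ := 2 ^ (2 ^ R * (8 * m + 12)) with hN
  have hN1 : (1 : ℝ) ≤ N := one_le_pow₀ (by norm_num)
  have hz0 : (0 : ℝ) < 2 ^ 2 ^ R := by positivity
  have hN2 : 2 * (2 : ℝ) ^ 2 ^ R ≤ N := by
    have h5 : (2 : ℝ) * 2 ^ 2 ^ R = 2 ^ (2 ^ R + 1) := by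
      rw [pow_succ]
      ring
    rw [h5, hN]
    refine pow_le_pow_right₀ (by norm_num) ?_
    have h6 : 1 ≤ 2 ^ R := Nat.one_le_two_pow
    calc 2 ^ R + 1 ≤ 2 ^ R + 2 ^ R := by omega
      _ = 2 ^ R * 2 := by ring
      _ ≤ 2 ^ R * (8 * m + 12) := Nat.mul_le_mul_left _ (by omega)
  have hy : ((2 ^ (2 ^ R * (16 * m + 24)) : ℕ) : ℝ) = N * N := by
    rw [hN, ← pow_add]
    push_cast
    congr 1
    ring
  have h5 : (((range (2 ^ (2 ^ R * (16 * m + 24)))).filter fun s =>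
      ∀ j : Fin R, ∀ p ∈ blk j, s % p ∉ S p)).card ≤
      (sv S (2 ^ 2 ^ R) (2 ^ (2 ^ R * (16 * m + 24)))).card := by
    refine Finset.card_le_card fun s hs => ?_
    rw [Finset.mem_filter, Finset.mem_range] at hs
    rw [mem_sv]
    refine ⟨hs.1, fun p hp hpR => ?_⟩
    rcases Nat.lt_or_ge 2 p with h6 | h6
    · obtain ⟨j, hj, hpj⟩ := exists_blk hp h6 hpR
      exact hs.2 ⟨j, hj⟩ p hpj
    · have h7 : p ≤ 2 ^ 2 ^ l₀ := by
        refine h6.trans ?_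
        calc 2 = 2 ^ 1 := rfl
          _ ≤ 2 ^ 2 ^ l₀ := Nat.pow_le_pow_right (by norm_num) Nat.one_le_two_pow
      rw [hS0 p h7]
      exact Finset.notMem_empty _
  -- abbreviations
  set e : ℝ := Real.exp (8 * k * R) with he
  set e' : ℝ := Real.exp (-(8 * k * R)) with he'
  have h11 : e * e' = 1 := by
    rw [he, he', ← Real.exp_add, add_neg_cancel, Real.exp_zero]
  have h12 : 0 < e' := Real.exp_pos _
  have h12e : 0 < e := Real.exp_pos _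
  have h6 : N * N * e' / 4 ≤
      ((sv S (2 ^ 2 ^ R) (2 ^ (2 ^ R * (16 * m + 24)))).card : ℝ) := by
    refine le_trans ?_ (h1.trans (by exact_mod_cast h5))
    rw [hy]
    have h7 : N * N * ((1 / 2 : ℝ) * e') ≤ N * N *
      (∏ j : Fin R, TT (blk j) (2 * (m + (R - 1 - j))) (wt S) -
        ∑ l : Fin R, EE (blk l) (2 * (m + (R - 1 - l)) + 1) (wt S) *
          ∏ j ∈ univ.erase l, TT (blk j) (2 * (m + (R - 1 - j))) (wt S)) :=
      mul_le_mul_of_nonneg_left h2 (by positivity)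
    have h8 : ((R : ℝ) + 1) * ∏ j : Fin R, AA S (blk j) (2 * (m + (R - 1 - j)) + 1) ≤
        ((R : ℝ) + 1) * N := mul_le_mul_of_nonneg_left h3 (by positivity)
    have h10 : 4 * ((R : ℝ) + 2) * e ≤ N := by linarith [h4, hN2]
    have h13 : 4 * ((R : ℝ) + 2) ≤ N * e' := by
      calc 4 * ((R : ℝ) + 2) = 4 * ((R : ℝ) + 2) * (e * e') := by rw [h11, mul_one]
        _ = 4 * ((R : ℝ) + 2) * e * e' := by ring
        _ ≤ N * e' := mul_le_mul_of_nonneg_right h10 h12.le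
    have h14 : 4 * ((R : ℝ) + 2) * N ≤ N * e' * N :=
      mul_le_mul_of_nonneg_right h13 (by linarith)
    nlinarith [h14, h7, h8, hN1]
  have h15 : (C : ℝ) * (N * N) ≤ 2 ^ 2 ^ R *
      ((sv S (2 ^ 2 ^ R) (2 ^ (2 ^ R * (16 * m + 24)))).card : ℝ) := by
    have h16 : (2 * (C : ℝ)) ≤ R := by exact_mod_cast hRC
    have h17 : 4 * (C : ℝ) * e ≤ 2 ^ 2 ^ R := by
      have h18 : 4 * (C : ℝ) * e ≤ 2 * ((R : ℝ) + 2) * e :=
        mul_le_mul_of_nonneg_right (by linarith) h12e.le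
      exact h18.trans h4
    have h19 : 4 * (C : ℝ) ≤ 2 ^ 2 ^ R * e' := by
      calc 4 * (C : ℝ) = 4 * (C : ℝ) * (e * e') := by rw [h11, mul_one]
        _ = 4 * (C : ℝ) * e * e' := by ring
        _ ≤ 2 ^ 2 ^ R * e' := mul_le_mul_of_nonneg_right h17 h12.le
    calc (C : ℝ) * (N * N) = 4 * (C : ℝ) * (N * N / 4) := by ring
      _ ≤ 2 ^ 2 ^ R * e' * (N * N / 4) := mul_le_mul_of_nonneg_right h19 (by positivity)
      _ = 2 ^ 2 ^ R * (N * N * e' / 4) := by ring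
      _ ≤ _ := mul_le_mul_of_nonneg_left h6 hz0.le
  rw [← hy] at h15
  exact_mod_cast h15

/-- the sieve for an arbitrary length `Y`, with a good count -/
theorem sieve_len_strong (k m v : ℕ) (hk : 2 * k + 1 ≤ 2 ^ 2 ^ 2)
    (hm : 2 * Real.exp (16 * k) ≤ 4 ^ m) (hv : v = 16 * m + 24) (C : ℕ) :
    ∃ Y0 : ℕ, ∀ S : ℕ → Finset ℕ, (∀ p, S p ⊆ range p) →
      (∀ p, (S p).card ≤ k) → (∀ p, p ≤ 16 → S p = ∅) → ∀ Y : ℕ, Y0 ≤ Y →
      ∃ z : ℕ, 2 ≤ z ∧ z ^ v ≤ Y ∧ Y < z ^ (2 * v) ∧ C * z ^ v ≤ z * (sv S z (z ^ v)).card := by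
  obtain ⟨R₀, h⟩ := sieve_count_strong k 2 m hk hm C
  refine ⟨2 ^ (2 ^ R₀ * v), ?_⟩
  intro S hS hSk hS0 Y hY
  have hex : ∃ R, Y < 2 ^ (2 ^ R * v) := by
    refine ⟨Y, ?_⟩
    have h1 : Y < 2 ^ Y := Nat.lt_two_pow_self
    have h2 : Y ≤ 2 ^ Y * v := by
      calc Y ≤ 2 ^ Y := h1.le
        _ = 2 ^ Y * 1 := (mul_one _).symm
        _ ≤ 2 ^ Y * v := Nat.mul_le_mul_left _ (by omega)
    exact h1.trans_le (Nat.pow_le_pow_right (by norm_num) h2)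
  have hspec := Nat.find_spec hex
  have hmin := fun {R : ℕ} (hR : R < Nat.find hex) => Nat.find_min hex hR
  obtain ⟨R1, hR1⟩ : ∃ R1, R1 = Nat.find hex := ⟨_, rfl⟩
  rw [← hR1] at hspec
  have hR0 : R₀ < R1 := by
    by_contra hcon
    push Not at hcon
    have h3 : 2 ^ (2 ^ R1 * v) ≤ 2 ^ (2 ^ R₀ * v) := by
      apply Nat.pow_le_pow_right (by norm_num)
      exact Nat.mul_le_mul_right _ (Nat.pow_le_pow_right (by norm_num) hcon)
    omega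
  obtain ⟨R, hR⟩ : ∃ R, R1 = R + 1 := ⟨R1 - 1, by omega⟩
  have hlow : 2 ^ (2 ^ R * v) ≤ Y := by
    have h4 := hmin (R := R) (by omega)
    omega
  refine ⟨2 ^ 2 ^ R, ?_, ?_, ?_, ?_⟩
  · calc 2 = 2 ^ 1 := by norm_num
      _ ≤ 2 ^ 2 ^ R := Nat.pow_le_pow_right (by norm_num) Nat.one_le_two_pow
  · rw [← pow_mul]
    exact hlow
  · rw [hR] at hspec
    rw [← pow_mul]
    have h5 : 2 ^ (R + 1) * v = 2 ^ R * (2 * v) := by ring
    rw [← h5]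
    exact hspec
  · have h6 := h S hS hSk hS0 R (by omega)
    rw [← hv] at h6
    rw [← pow_mul]
    exact h6

theorem two_le_pow {z v : ℕ} (hz : 2 ≤ z) (hv : 1 ≤ v) : 2 ≤ z ^ v := by
  calc 2 = 2 ^ 1 := by norm_num
    _ ≤ z ^ 1 := Nat.pow_le_pow_left hz 1
    _ ≤ z ^ v := Nat.pow_le_pow_right (by omega) hv

theorem exp_bound (j m : ℕ) (h : 2 * (2.7182818286 : ℝ) ^ j ≤ 4 ^ m) :
    2 * Real.exp (j : ℝ) ≤ 4 ^ m := by
  have h1 : Real.exp (j : ℝ) = Real.exp 1 ^ j := by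
    rw [← Real.exp_nat_mul, mul_one]
  have h2 : Real.exp 1 ^ j ≤ (2.7182818286 : ℝ) ^ j :=
    pow_le_pow_left₀ (Real.exp_pos 1).le Real.exp_one_lt_d9.le j
  rw [h1]
  linarith

end Pool.Agent.MP_59d845_nt
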