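import Pool.Agent.Lib.MP_59d845_nt.Base

/-! MP_59d845_nt: the sieve for `r ^ 2 - 2 m` and `5 m - 2 r ^ 2`. -/

set_option autoImplicit false

open Finset

namespace Pool.Agent.MP_59d845_nt

open Pool.Agent.SievePar

/-- the product of the two forms -/
def GG (m : ℕ) (x : ℕ) : ℤ := ((x : ℤ) ^ 2 - 2 * m) * (5 * m - 2 * (x : ℤ) ^ 2)

theorem resid (p : ℕ) [NeZero p]
    (key : ∀ m : ZMod p, (p = 2 → m = 1) → ∃ r : ZMod p, (r ^ 2 - 2 * m) * (5 * m - 2 * r ^ 2) ≠ 0)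
    (m : ℕ) (hm : m % 2 = 1) :
    ∃ r : ℕ, ∀ x : ℕ, x ≡ r [MOD p] → ¬ (p : ℤ) ∣ GG m x := by
  obtain ⟨r, hr⟩ := key (m : ZMod p) (by
    intro hp
    subst hp
    have h1 : m ≡ 1 [MOD 2] := hm
    have h2 := (ZMod.natCast_eq_natCast_iff m 1 2).mpr h1
    simpa using h2)
  refine ⟨r.val, fun x hx hdvd => hr ?_⟩
  have h1 : ((x : ℕ) : ZMod p) = r := by
    have h2 : ((x : ℕ) : ZMod p) = ((r.val : ℕ) : ZMod p) := (ZMod.natCast_eq_natCast_iff _ _ _).mpr hx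
    rw [h2, ZMod.natCast_val, ZMod.cast_id]
  have h3 : ((GG m x : ℤ) : ZMod p) = 0 := (ZMod.intCast_zmod_eq_zero_iff_dvd _ p).mpr hdvd
  unfold GG at h3
  push_cast at h3
  rw [h1] at h3
  exact h3

theorem key2 : ∀ m : ZMod 2, (2 = 2 → m = 1) →
    ∃ r : ZMod 2, (r ^ 2 - 2 * m) * (5 * m - 2 * r ^ 2) ≠ 0 := by
  decide
theorem key3 : ∀ m : ZMod 3, (3 = 2 → m = 1) →
    ∃ r : ZMod 3, (r ^ 2 - 2 * m) * (5 * m - 2 * r ^ 2) ≠ 0 := by
  decide
theorem key5 : ∀ m : ZMod 5, (5 = 2 → m = 1) →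
    ∃ r : ZMod 5, (r ^ 2 - 2 * m) * (5 * m - 2 * r ^ 2) ≠ 0 := by
  decide
theorem key7 : ∀ m : ZMod 7, (7 = 2 → m = 1) →
    ∃ r : ZMod 7, (r ^ 2 - 2 * m) * (5 * m - 2 * r ^ 2) ≠ 0 := by
  decide
theorem key11 : ∀ m : ZMod 11, (11 = 2 → m = 1) →
    ∃ r : ZMod 11, (r ^ 2 - 2 * m) * (5 * m - 2 * r ^ 2) ≠ 0 := by
  decide
theorem key13 : ∀ m : ZMod 13, (13 = 2 → m = 1) →
    ∃ r : ZMod 13, (r ^ 2 - 2 * m) * (5 * m - 2 * r ^ 2) ≠ 0 := by
  decide

theorem small_resid (m : ℕ) (hm : m % 2 = 1) (p : ℕ) (hp : p.Prime) (h16 : p ≤ 16) :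
    ∃ r : ℕ, ∀ x : ℕ, x ≡ r [MOD p] → ¬ (p : ℤ) ∣ GG m x := by
  have h0 : p ≠ 0 := hp.ne_zero
  interval_cases p
  · exact absurd rfl h0
  · exact absurd hp (by norm_num)
  · exact resid 2 key2 m hm
  · exact resid 3 key3 m hm
  · exact absurd hp (by norm_num)
  · exact resid 5 key5 m hm
  · exact absurd hp (by norm_num)
  · exact resid 7 key7 m hm
  · exact absurd hp (by norm_num)
  · exact absurd hp (by norm_num)
  · exact absurd hp (by norm_num)
  · exact resid 11 key11 m hm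
  · exact absurd hp (by norm_num)
  · exact resid 13 key13 m hm
  · exact absurd hp (by norm_num)
  · exact absurd hp (by norm_num)
  · exact absurd hp (by norm_num)

theorem prime_not_dvd_W (p : ℕ) (hp : p.Prime) (h16 : 16 < p) : ¬ p ∣ 30030 := by
  intro h
  have h1 : (30030 : ℕ) = 2 * 3 * 5 * 7 * 11 * 13 := by norm_num
  rw [h1] at h
  simp only [hp.dvd_mul] at h
  rcases h with ((((h | h) | h) | h) | h) | h <;>
    · have := Nat.le_of_dvd (by norm_num) h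
      omega

/-- a polynomial `a X ^ 2 + b` with `p ∤ a` has at most two roots in a progression -/
theorem card_quad_le (p : ℕ) (hp : p.Prime) (a b : ℤ) (ha : ¬ (p : ℤ) ∣ a)
    (x1 : ℕ) (W : ℕ) (hW : ¬ p ∣ W) :
    ((range p).filter (fun s => (p : ℤ) ∣ a * ((x1 + W * s : ℕ) : ℤ) ^ 2 + b)).card ≤ 2 := by
  classical
  have hpi : Prime (p : ℤ) := Nat.prime_iff_prime_int.mp hp
  set F := (range p).filter (fun s => (p : ℤ) ∣ a * ((x1 + W * s : ℕ) : ℤ) ^ 2 + b) with hF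
  rcases F.eq_empty_or_nonempty with he | ⟨s0, hs0⟩
  · rw [he]
    simp
  have hs0' := hs0
  rw [hF, Finset.mem_filter, Finset.mem_range] at hs0'
  -- every other root is congruent to plus or minus the first
  have hsplit : F ⊆ ((range p).filter (fun s => (p : ℤ) ∣ ((x1 + W * s : ℕ) : ℤ) - ((x1 + W * s0 : ℕ) : ℤ)))
      ∪ ((range p).filter (fun s => (p : ℤ) ∣ ((x1 + W * s : ℕ) : ℤ) + ((x1 + W * s0 : ℕ) : ℤ))) := by
    intro t ht
    rw [hF, Finset.mem_filter, Finset.mem_range] at ht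
    have h1 := dvd_sub ht.2 hs0'.2
    have h2 : a * ((x1 + W * t : ℕ) : ℤ) ^ 2 + b - (a * ((x1 + W * s0 : ℕ) : ℤ) ^ 2 + b)
        = a * ((((x1 + W * t : ℕ) : ℤ) - ((x1 + W * s0 : ℕ) : ℤ)) *
          (((x1 + W * t : ℕ) : ℤ) + ((x1 + W * s0 : ℕ) : ℤ))) := by ring
    rw [h2] at h1
    rw [Finset.mem_union, Finset.mem_filter, Finset.mem_filter, Finset.mem_range]
    rcases hpi.dvd_or_dvd h1 with h3 | h3
    · exact absurd h3 ha
    · rcases hpi.dvd_or_dvd h3 with h4 | h4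
      · exact Or.inl ⟨ht.1, h4⟩
      · exact Or.inr ⟨ht.1, h4⟩
  have hone : ∀ c : ℤ, ((range p).filter (fun s => (p : ℤ) ∣ ((x1 + W * s : ℕ) : ℤ) + c)).card ≤ 1 := by
    intro c
    rw [Finset.card_le_one]
    intro s hs t ht
    rw [Finset.mem_filter, Finset.mem_range] at hs ht
    have h1 : (p : ℤ) ∣ W * ((s : ℤ) - t) := by
      have h2 := dvd_sub hs.2 ht.2
      have h3 : ((x1 + W * s : ℕ) : ℤ) + c - (((x1 + W * t : ℕ) : ℤ) + c) = W * ((s : ℤ) - t) := by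
        push_cast
        ring
      rwa [h3] at h2
    rcases hpi.dvd_or_dvd h1 with h5 | h5
    · exact absurd (Int.natCast_dvd_natCast.mp h5) hW
    · have h6 : (s : ℤ) ≡ t [ZMOD p] := (Int.modEq_iff_dvd.mpr (by
        have : (t : ℤ) - s = -((s : ℤ) - t) := by ring
        rw [this]
        exact (dvd_neg).mpr h5))
      have h7 : s ≡ t [MOD p] := (Int.natCast_modEq_iff).mp h6
      exact Nat.ModEq.eq_of_lt_of_lt h7 hs.1 ht.1
  have h1 := hone (-((x1 + W * s0 : ℕ) : ℤ))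
  have h2 := hone ((x1 + W * s0 : ℕ) : ℤ)
  simp only [← sub_eq_add_neg] at h1
  have h3 := Finset.card_le_card hsplit
  have h4 := Finset.card_union_le
    ((range p).filter (fun s => (p : ℤ) ∣ ((x1 + W * s : ℕ) : ℤ) - ((x1 + W * s0 : ℕ) : ℤ)))
    ((range p).filter (fun s => (p : ℤ) ∣ ((x1 + W * s : ℕ) : ℤ) + ((x1 + W * s0 : ℕ) : ℤ)))
  omega

/-- the set of excluded residues -/
noncomputable def SS (m x1 : ℕ) (p : ℕ) : Finset ℕ :=
  if p.Prime ∧ 16 < p then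
    (range p).filter (fun s => (p : ℤ) ∣ GG m (x1 + 30030 * s)) else ∅

theorem SS_card (m x1 p : ℕ) : (SS m x1 p).card ≤ 4 := by
  classical
  unfold SS
  split_ifs with h
  · obtain ⟨hp, h16⟩ := h
    have hpi : Prime (p : ℤ) := Nat.prime_iff_prime_int.mp hp
    have hW := prime_not_dvd_W p hp h16
    have h1 := card_quad_le p hp 1 (-(2 * (m : ℤ))) (fun h3 => hpi.not_dvd_one h3) x1 30030 hW
    have h2 := card_quad_le p hp (-2) (5 * (m : ℤ)) (by
      intro h3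
      rw [dvd_neg] at h3
      have h4 : p ∣ 2 := by exact_mod_cast h3
      have := Nat.le_of_dvd (by norm_num) h4
      omega) x1 30030 hW
    calc ((range p).filter (fun s => (p : ℤ) ∣ GG m (x1 + 30030 * s))).card
        ≤ (((range p).filter (fun s => (p : ℤ) ∣ 1 * ((x1 + 30030 * s : ℕ) : ℤ) ^ 2 + -(2 * (m : ℤ)))) ∪
          ((range p).filter (fun s => (p : ℤ) ∣ -2 * ((x1 + 30030 * s : ℕ) : ℤ) ^ 2
            + 5 * (m : ℤ)))).card := by
          apply Finset.card_le_card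
          intro s hs
          rw [Finset.mem_filter] at hs
          rw [Finset.mem_union, Finset.mem_filter, Finset.mem_filter]
          unfold GG at hs
          rcases hpi.dvd_or_dvd hs.2 with h3 | h3
          · refine Or.inl ⟨hs.1, ?_⟩
            have h4 : 1 * ((x1 + 30030 * s : ℕ) : ℤ) ^ 2 + -(2 * (m : ℤ))
              = ((x1 + 30030 * s : ℕ) : ℤ) ^ 2 - 2 * m := by ring
            rw [h4]
            exact h3
          · refine Or.inr ⟨hs.1, ?_⟩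
            have h4 : -2 * ((x1 + 30030 * s : ℕ) : ℤ) ^ 2 + 5 * (m : ℤ)
              = 5 * m - 2 * ((x1 + 30030 * s : ℕ) : ℤ) ^ 2 := by ring
            rw [h4]
            exact h3
      _ ≤ _ := Finset.card_union_le _ _
      _ ≤ 4 := by omega
  · simp

theorem GG_congr (m : ℕ) (p : ℕ) {x y : ℕ} (h : x ≡ y [MOD p]) :
    (p : ℤ) ∣ GG m x ↔ (p : ℤ) ∣ GG m y := by
  have h1 : (x : ℤ) ≡ y [ZMOD p] := (Int.natCast_modEq_iff).mpr h
  have h2 : GG m x ≡ GG m y [ZMOD p] := by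
    unfold GG
    exact ((h1.pow 2).sub_right _).mul (((h1.pow 2).mul_left _).sub_left _)
  exact h2.dvd_iff

end Pool.Agent.MP_59d845_nt
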