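import Pool.Agent.Lib.MP_59d845_nt.Main

/-! MP_59d845_nt: the main theorem. -/

set_option autoImplicit false

open Finset

namespace Pool.Agent.MP_59d845_nt

open Pool.Agent.SievePar

/-- at most `N / l + 1` numbers `s < N` with `l ∣ x1 + W s` -/
theorem card_bad_le (l : ℕ) (hl : l.Prime) (x1 W N : ℕ) (hW : ¬ l ∣ W) :
    ((range N).filter (fun s => l ∣ x1 + W * s)).card ≤ N / l + 1 := by
  classical
  rw [← Finset.card_range (N / l + 1)]
  apply Finset.card_le_card_of_injOn (fun s => s / l)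
  · intro s hs
    rw [Finset.mem_coe, Finset.mem_filter, Finset.mem_range] at hs
    rw [Finset.mem_coe, Finset.mem_range]
    exact Nat.lt_succ_of_le (Nat.div_le_div_right hs.1.le)
  · intro s hs t ht hst
    rw [Finset.mem_coe, Finset.mem_filter, Finset.mem_range] at hs ht
    have hst' : s / l = t / l := hst
    have h1 : (l : ℤ) ∣ W * ((s : ℤ) - t) := by
      have h2 := dvd_sub (Int.natCast_dvd_natCast.mpr hs.2) (Int.natCast_dvd_natCast.mpr ht.2)
      have h3 : ((x1 + W * s : ℕ) : ℤ) - ((x1 + W * t : ℕ) : ℤ) = W * ((s : ℤ) - t) := by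
        push_cast
        ring
      rwa [h3] at h2
    have hpi : Prime (l : ℤ) := Nat.prime_iff_prime_int.mp hl
    have h4 : s % l = t % l := by
      rcases hpi.dvd_or_dvd h1 with h5 | h5
      · exact absurd (Int.natCast_dvd_natCast.mp h5) hW
      · have h6 : (s : ℤ) ≡ t [ZMOD l] := (Int.modEq_iff_dvd.mpr (by
          have : (t : ℤ) - s = -((s : ℤ) - t) := by ring
          rw [this]
          exact (dvd_neg).mpr h5))
        exact (Int.natCast_modEq_iff).mp h6
    have h7 := Nat.div_add_mod s l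
    have h8 := Nat.div_add_mod t l
    rw [← h7, ← h8, hst', h4]

/-- the large prime factors are few -/
theorem card_large_le (m z K : ℕ) (hm : m ≠ 0) (hz : 2 ≤ z) (hmz : m < z ^ K) :
    (m.primeFactors.filter (fun l => z < l)).card ≤ K := by
  classical
  have h1 : z ^ (m.primeFactors.filter (fun l => z < l)).card ≤
      ∏ l ∈ m.primeFactors.filter (fun l => z < l), l := by
    apply Finset.pow_card_le_prod
    intro l hl
    exact (Finset.mem_filter.mp hl).2.le
  have h2 : ∏ l ∈ m.primeFactors.filter (fun l => z < l), l ≤ m := by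
    apply Nat.le_of_dvd (Nat.pos_of_ne_zero hm)
    exact (Finset.prod_dvd_prod_of_subset _ _ _ (Finset.filter_subset _ _)).trans
      (Nat.prod_primeFactors_dvd m)
  by_contra hcon
  push Not at hcon
  have h3 : z ^ K ≤ z ^ (m.primeFactors.filter (fun l => z < l)).card :=
    Nat.pow_le_pow_right (by omega) hcon.le
  omega

theorem exp_bound4 : 2 * Real.exp (16 * ((4 : ℕ) : ℝ)) ≤ 4 ^ 47 := by
  have h := exp_bound 64 47 (by norm_num)
  have e : (16 * ((4 : ℕ) : ℝ)) = ((64 : ℕ) : ℝ) := by norm_num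
  rw [e]
  exact h

/-- For all large odd `m`: many `r` such that `r ^ 2 - 2 m` and `5 m - 2 r ^ 2` are positive, have only
large prime factors, and `r` is coprime to `m`. -/
theorem main : ∃ m0 : ℕ, ∀ m : ℕ, m0 ≤ m → m % 2 = 1 → ∃ T : Finset ℕ, m < T.card ^ 5 ∧
    ∀ x ∈ T, 2 * m < x ^ 2 ∧ 2 * x ^ 2 < 5 * m ∧ Nat.Coprime x m ∧
      ∀ p : ℕ, p.Prime → (p : ℤ) ∣ GG m x → m < p ^ 3144 := by
  classical
  obtain ⟨v, hv776⟩ : ∃ v, v = 776 := ⟨_, rfl⟩
  obtain ⟨K, hK⟩ : ∃ K, K = 2 * (2 * v + 20) := ⟨_, rfl⟩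
  have hK' : K = 3144 := by omega
  obtain ⟨Y0, hs⟩ := sieve_len_strong 4 47 v (by norm_num) exp_bound4 (by omega) (2 * K + 1)
  refine ⟨(300300 * (Y0 + 2)) ^ 2, ?_⟩
  intro m hm hodd
  rw [← hK']
  choose! a ha using fun p hp h16 => small_resid m hodd p hp h16
  obtain ⟨x0, hx0, hx0a⟩ := Pool.Agent.MP_94fdc2_nt.exists_base a
  obtain ⟨M, hM⟩ : ∃ M, M = Nat.sqrt (2 * m) := ⟨_, rfl⟩
  have hM1 : M * M ≤ 2 * m := by rw [hM]; exact Nat.sqrt_le _
  have hM2 : 2 * m < (M + 1) * (M + 1) := by rw [hM]; exact Nat.lt_succ_sqrt _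
  have hMbig : 300300 * (Y0 + 2) ≤ M := by
    rw [hM]
    apply Nat.le_sqrt.mpr
    calc 300300 * (Y0 + 2) * (300300 * (Y0 + 2)) = (300300 * (Y0 + 2)) ^ 2 := (sq _).symm
      _ ≤ m := hm
      _ ≤ 2 * m := by omega
  obtain ⟨x1, hx1⟩ : ∃ x1, x1 = M + 1 + (x0 + 30029 * (M + 1)) % 30030 := ⟨_, rfl⟩
  have hmod := Nat.mod_lt (x0 + 30029 * (M + 1)) (show 0 < 30030 by norm_num)
  have hx1a : x1 ≤ M + 30030 := by omega
  have hx1b : M + 1 ≤ x1 := by omega
  have hx1c : x1 ≡ x0 [MOD 30030] := by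
    have h1 : (x0 + 30029 * (M + 1)) % 30030 ≡ x0 + 30029 * (M + 1) [MOD 30030] :=
      Nat.mod_modEq _ _
    have h2 := h1.add_left (M + 1)
    rw [← hx1] at h2
    have h3 : M + 1 + (x0 + 30029 * (M + 1)) = x0 + 30030 * (M + 1) := by ring
    rw [h3] at h2
    have h4 : x0 + 30030 * (M + 1) ≡ x0 + 0 [MOD 30030] :=
      (Nat.ModEq.rfl).add ((Nat.modEq_zero_iff_dvd).mpr (Dvd.intro _ rfl))
    exact h2.trans h4
  obtain ⟨Y, hY⟩ : ∃ Y, Y = M / 300300 - 2 := ⟨_, rfl⟩
  have hn4 : Y0 + 2 ≤ M / 300300 := by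
    rw [Nat.le_div_iff_mul_le (by norm_num)]
    linarith
  have hdiv := Nat.div_add_mod M 300300
  have hmod2 := Nat.mod_lt M (show 0 < 300300 by norm_num)
  obtain ⟨z, hz2, hzY, hYz, hcard⟩ := hs (SS m x1) (fun p => by
      unfold SS
      split_ifs
      · exact Finset.filter_subset _ _
      · exact Finset.empty_subset _) (SS_card m x1) (fun p hp => by
      unfold SS
      rw [if_neg]
      omega) Y (by omega)
  have hz0 : 0 < z := by omega
  -- size of `m`
  have hMz : M + 1 ≤ z ^ (2 * v + 20) := by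
    have h1 : M + 1 ≤ 300300 * (Y + 3) := by omega
    have h2 : 2 ≤ z ^ (2 * v) := two_le_pow hz2 (by omega)
    have h3 : 2 ^ 20 ≤ z ^ 20 := Nat.pow_le_pow_left hz2 20
    have h5 : 2 ^ 20 = 1048576 := by norm_num
    calc M + 1 ≤ 300300 * (Y + 3) := h1
      _ ≤ z ^ (2 * v) * 1048576 := by omega
      _ ≤ z ^ (2 * v) * z ^ 20 := Nat.mul_le_mul_left _ (by omega)
      _ = z ^ (2 * v + 20) := (pow_add _ _ _).symm
  have hmz : m < z ^ K := by
    calc m ≤ 2 * m := by omega
      _ < (M + 1) * (M + 1) := hM2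
      _ ≤ z ^ (2 * v + 20) * z ^ (2 * v + 20) := Nat.mul_le_mul hMz hMz
      _ = z ^ K := by
          rw [← pow_add, hK]
          congr 1
          ring
  have hm0 : m ≠ 0 := by omega
  -- the bad ones
  set PF := m.primeFactors.filter (fun l => z < l) with hPF
  have hPFc : PF.card ≤ K := card_large_le m z K hm0 hz2 hmz
  obtain ⟨w, hw⟩ : ∃ w, v = w + 1 := ⟨v - 1, by omega⟩
  set bad := (PF.filter (fun l => 16 < l)).biUnion
    (fun l => (range (z ^ v)).filter (fun s => l ∣ x1 + 30030 * s)) with hbad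
  have hbadc : bad.card ≤ K * (2 * z ^ w) := by
    calc bad.card ≤ ∑ l ∈ PF.filter (fun l => 16 < l),
          ((range (z ^ v)).filter (fun s => l ∣ x1 + 30030 * s)).card := Finset.card_biUnion_le
      _ ≤ ∑ _l ∈ PF.filter (fun l => 16 < l), 2 * z ^ w := by
          apply Finset.sum_le_sum
          intro l hl
          rw [Finset.mem_filter, hPF, Finset.mem_filter] at hl
          have hlp : l.Prime := Nat.prime_of_mem_primeFactors hl.1.1
          have h1 := card_bad_le l hlp x1 30030 (z ^ v) (prime_not_dvd_W l hlp hl.2)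
          have h2 : z ^ v / l ≤ z ^ w := by
            calc z ^ v / l ≤ z ^ v / z := Nat.div_le_div_left hl.1.2.le hz0
              _ = z ^ w := by
                rw [hw, pow_succ, Nat.mul_div_cancel _ hz0]
          have h3 : 1 ≤ z ^ w := Nat.one_le_pow _ _ hz0
          omega
      _ = (PF.filter (fun l => 16 < l)).card * (2 * z ^ w) := by
          rw [Finset.sum_const, smul_eq_mul]
      _ ≤ K * (2 * z ^ w) := by
          apply Nat.mul_le_mul_right
          exact (Finset.card_filter_le _ _).trans hPFc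
  have hcard' : (2 * K + 1) * z ^ w ≤ (sv (SS m x1) z (z ^ v)).card := by
    apply Nat.le_of_mul_le_mul_left _ hz0
    calc z * ((2 * K + 1) * z ^ w) = (2 * K + 1) * z ^ v := by
          rw [hw, pow_succ]
          ring
      _ ≤ _ := hcard
  set good := sv (SS m x1) z (z ^ v) \ bad with hgood
  have hgoodc : z ^ w ≤ good.card := by
    have h1 : (sv (SS m x1) z (z ^ v)).card ≤ good.card + bad.card := by
      rw [hgood]
      calc (sv (SS m x1) z (z ^ v)).card ≤ ((sv (SS m x1) z (z ^ v) \ bad) ∪ bad).card := by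
            apply Finset.card_le_card
            intro s hs'
            rw [Finset.mem_union, Finset.mem_sdiff]
            by_cases hb : s ∈ bad
            · exact Or.inr hb
            · exact Or.inl ⟨hs', hb⟩
        _ ≤ _ := Finset.card_union_le _ _
    have h2 : (2 * K + 1) * z ^ w = K * (2 * z ^ w) + z ^ w := by ring
    omega
  refine ⟨good.image (fun s => x1 + 30030 * s), ?_, ?_⟩
  · rw [Finset.card_image_of_injective _ (fun s t hst => by
      have : x1 + 30030 * s = x1 + 30030 * t := hst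
      omega)]
    calc m < z ^ K := hmz
      _ ≤ z ^ (w * 5) := Nat.pow_le_pow_right hz0 (by omega)
      _ = (z ^ w) ^ 5 := pow_mul _ _ _
      _ ≤ _ := Nat.pow_le_pow_left hgoodc 5
  · intro x hx
    rw [Finset.mem_image] at hx
    obtain ⟨s, hsm, rfl⟩ := hx
    rw [hgood, Finset.mem_sdiff, mem_sv] at hsm
    obtain ⟨⟨hsz, hsv⟩, hsb⟩ := hsm
    have hsY : s < Y := lt_of_lt_of_le hsz hzY
    have hlow : M + 1 ≤ x1 + 30030 * s := by omega
    have hup : 10 * (x1 + 30030 * s) ≤ 11 * M := by omega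
    have hzp : ∀ p : ℕ, p.Prime → (p : ℤ) ∣ GG m (x1 + 30030 * s) → z < p ∧ 16 < p := by
      intro p hp hdvd
      have h16 : 16 < p := by
        by_contra hcon
        push Not at hcon
        apply ha p hp hcon _ ?_ hdvd
        have h8 : p ∣ 30030 := by
          have h0 : p ≠ 0 := hp.ne_zero
          interval_cases p <;> first | decide | (exfalso; revert hp; norm_num)
        have h7 : x1 + 30030 * s ≡ x0 [MOD p] := by
          have h10 : 30030 * s ≡ 0 [MOD p] :=
            (Nat.modEq_zero_iff_dvd).mpr (Dvd.dvd.mul_right h8 _)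
          exact (hx1c.of_dvd h8).add h10
        exact h7.trans (hx0a p hp hcon)
      refine ⟨?_, h16⟩
      by_contra hcon
      push Not at hcon
      apply hsv p hp hcon
      unfold SS
      rw [if_pos ⟨hp, h16⟩, Finset.mem_filter, Finset.mem_range]
      refine ⟨Nat.mod_lt _ hp.pos, ?_⟩
      refine (GG_congr m p ?_).mpr hdvd
      exact (Nat.ModEq.rfl).add ((Nat.mod_modEq s p).mul_left _)
    refine ⟨?_, ?_, ?_, ?_⟩
    · calc 2 * m < (M + 1) * (M + 1) := hM2
        _ ≤ (x1 + 30030 * s) * (x1 + 30030 * s) := Nat.mul_le_mul hlow hlow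
        _ = _ := (sq _).symm
    · have h1 : (10 * (x1 + 30030 * s)) * (10 * (x1 + 30030 * s)) ≤ (11 * M) * (11 * M) :=
        Nat.mul_le_mul hup hup
      have h2 : (11 * M) * (11 * M) = 121 * (M * M) := by ring
      have h3 : (10 * (x1 + 30030 * s)) * (10 * (x1 + 30030 * s)) = 100 * (x1 + 30030 * s) ^ 2 := by
        ring
      rw [h2, h3] at h1
      omega
    · rw [Nat.coprime_iff_gcd_eq_one]
      by_contra hne
      obtain ⟨l, hlp, hl⟩ := Nat.exists_prime_and_dvd hne
      have hl1 : l ∣ x1 + 30030 * s := hl.trans (Nat.gcd_dvd_left _ _)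
      have hl2 : l ∣ m := hl.trans (Nat.gcd_dvd_right _ _)
      have hd : (l : ℤ) ∣ GG m (x1 + 30030 * s) := by
        unfold GG
        apply Dvd.dvd.mul_right
        apply dvd_sub
        · exact Dvd.dvd.pow (Int.natCast_dvd_natCast.mpr hl1) (by norm_num)
        · exact Dvd.dvd.mul_left (Int.natCast_dvd_natCast.mpr hl2) _
      obtain ⟨h1, h2⟩ := hzp l hlp hd
      apply hsb
      rw [hbad, Finset.mem_biUnion]
      refine ⟨l, ?_, ?_⟩
      · rw [Finset.mem_filter, hPF, Finset.mem_filter, Nat.mem_primeFactors]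
        exact ⟨⟨⟨hlp, hl2, hm0⟩, h1⟩, h2⟩
      · rw [Finset.mem_filter, Finset.mem_range]
        exact ⟨hsz, hl1⟩
    · intro p hp hdvd
      calc m < z ^ K := hmz
        _ ≤ p ^ K := Nat.pow_le_pow_left (hzp p hp hdvd).1.le _

end Pool.Agent.MP_59d845_nt
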